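import Pool.Agent.H72.G0.Rep2
import Pool.Agent.H72.G9.UXC

/-!
# Row UXR of the board g0 (MP_c59857_nt, theorem (H0)): the energies on the multiples of the primes
of the level, one window, restricted families
-/

set_option autoImplicit false

open Finset Pool.Agent.H6.N4D Pool.Agent.H93 Pool.Agent.H93.GS Pool.Agent.H6.GS2 Pool.Agent.H6.G9
  Pool.Agent.H6.G0

namespace Pool.Agent.H72.G0

open Pool.Agent.H48.GSW (ong_q ind_nonneg ind_le_one ind_true ind_false exc_sum lin_le)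
open Pool.Agent.H72.G9 (nums ph uu fam_good fam_bad tm tm_congr tm_zero fv_tm nd_zero' Sp_symm)

/-- the coefficients which are not zero -/
lemma uu_key {k : ℕ} {G : ℕ → Prop} {kk : ℕ → ℕ} {c : ℕ → ℕ → ℂ} {α : ℕ → ℕ → ℝ}
    {V : ℕ → ℕ → ℕ} {bs : ℕ → ℕ → ℝ} {g : Ex} {i q : ℕ} (hi : uu k G kk c V g.k g.c i q ≠ 0) :
    G q ∧ ((∃ l < kk q, ph k G kk α V bs g.a i q = α q l) ∨
      ∃ l < g.k, ph k G kk α V bs g.a i q = g.a l) := by
  classical
  unfold uu at hi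
  split_ifs at hi with h1 h2 h3 h4
  · refine ⟨h1, Or.inl ⟨_, h3.1, ?_⟩⟩
    unfold ph
    rw [if_pos h2, if_pos ⟨h1, h3⟩]
  · exact absurd rfl hi
  · refine ⟨h1, Or.inr ⟨_, h4, ?_⟩⟩
    unfold ph
    rw [if_neg h2]
  · exact absurd rfl hi
  · exact absurd rfl hi

/-- a larger number of frequencies -/
lemma adm_mono {m J P : ℕ} {A : ℝ} {G : ℕ → Prop} {k r : ℕ} {kk : ℕ → ℕ} {c : ℕ → ℕ → ℂ}
    {α : ℕ → ℕ → ℝ} {V : ℕ → ℕ → ℕ} {bs : ℕ → ℕ → ℝ} {ga : ℕ → ℝ} {gc : ℕ → ℂ} (hA : A ≤ P)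
    (hJ : k * (2 * k) + r ≤ J) (h0 : ∀ (a : ℝ), Pool.Agent.H3.BT.NCt m (fun _ => a))
    (h : Adm m J A (ph k G kk α V bs ga) (uu k G kk c V r gc)) :
    Adm m P P (ph k G kk α V bs ga) (uu k G kk c V r gc) := by
  classical
  have hz : ∀ j q, uu k G kk c V r gc j q ≠ 0 → j < J := by
    intro j q hj
    unfold uu at hj
    split_ifs at hj with h1 h2 h3 h4
    · omega
    · exact absurd rfl hj
    · omega
    · exact absurd rfl hj
    · exact absurd rfl hj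
  refine ⟨?_, fun j q => (h.cb j q).trans hA, fun q hq i _ j _ hi hj =>
    h.cl q hq i (hz i q hi) j (hz j q hj) hi hj⟩
  intro j _
  by_cases hj : j < J
  · exact h.nc j hj
  · have e : ph k G kk α V bs ga j = fun _ => ga (j - k * (2 * k)) := by
      funext q
      unfold ph
      rw [if_neg (by omega)]
    rw [e]
    exact h0 _

/-- the values do not change -/
lemma fam_more {J P k r : ℕ} {G : ℕ → Prop} {kk : ℕ → ℕ} {c : ℕ → ℕ → ℂ} {α : ℕ → ℕ → ℝ}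
    {V : ℕ → ℕ → ℕ} {bs : ℕ → ℕ → ℝ} {ga : ℕ → ℝ} {gc : ℕ → ℂ} (hJP : J ≤ P)
    (hJ : k * (2 * k) + r ≤ J) (q x : ℕ) :
    (fam P (ph k G kk α V bs ga) (uu k G kk c V r gc) q).f x =
      (fam J (ph k G kk α V bs ga) (uu k G kk c V r gc) q).f x := by
  classical
  unfold fam Ex.f
  simp only
  symm
  apply sum_subset (range_subset_range.2 hJP)
  intro j _ hj
  have hj' : J ≤ j := by rw [mem_range] at hj; omega
  have h1 : ¬ j < k * (2 * k) := by omega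
  have h2 : ¬ j - k * (2 * k) < r := by omega
  unfold uu
  rw [if_neg h1, if_neg h2, ite_self, zero_mul]

theorem pf_UXR (hS : T_SEP) (hO : T_OPD) (hB : T_BNM) (hL : T_LFC) (h0 : T_LF0)
    (hC : T_LCF) (hN : T_NRS) (h1 : T_UX1) (hU : T_UBR) : T_UXR := by
  classical
  intro th hth hth1
  have hth2 : th ^ 2 ≤ 1 := pow_le_one₀ hth.le hth1
  have hth4 : th ^ 4 ≤ 1 := pow_le_one₀ hth.le hth1
  have hLam : 1 ≤ 4 / th ^ 2 := by rw [le_div_iff₀ (by positivity)]; linarith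
  obtain ⟨P₀, C₁, κ₁, hP₀, hC₁, hκ₁, hκ₁1, hsep⟩ := hS th (4 / th ^ 2) hth hth1 hLam
  obtain ⟨m₂, hL⟩ := hL
  obtain ⟨m₃, h0⟩ := h0
  obtain ⟨m₄, hN⟩ := hN
  obtain ⟨m₅, hQ⟩ := Pool.Agent.H20.ENM.pf_QMS
  obtain ⟨k, hk⟩ : ∃ k : ℕ, k = ⌊5 / th ^ 2⌋₊ := ⟨_, rfl⟩
  obtain ⟨P, hP⟩ : ∃ P : ℕ, P = k * (2 * k) + k + 4 + ⌈577 / th ^ 4⌉₊ := ⟨_, rfl⟩
  have hPr : 577 / th ^ 4 ≤ (P : ℝ) := by
    refine (Nat.le_ceil _).trans ?_
    rw [hP]; exact_mod_cast Nat.le_add_left _ _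
  have hPJ : k * (2 * k) + k ≤ P := by rw [hP]; omega
  have hP4 : 4 ≤ P := by rw [hP]; omega
  have hPb : ∀ x : ℝ, x ≤ 577 / th ^ 4 → x ≤ P := fun x hx => hx.trans hPr
  have hPth : 1 / th ≤ (P : ℝ) := by
    apply hPb
    rw [div_le_div_iff₀ hth (by positivity)]
    have h3 : th ^ 4 ≤ th := pow_le_of_le_one hth.le hth1 (by norm_num)
    linarith
  obtain ⟨m₆, C₆, hC₆, hU⟩ := hU P
  obtain ⟨m₇, hm₇⟩ : ∃ m₇ : ℕ, (P : ℝ) ^ 4 * (1 / 2) ^ m₇ ≤ 1 / ((P : ℝ) + 1) := by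
    have h3 : (0 : ℝ) < 1 / ((P : ℝ) + 1) / ((P : ℝ) ^ 4 + 1) := by positivity
    obtain ⟨m₇, h4⟩ := exists_pow_lt_of_lt_one h3 (by norm_num : (1 / 2 : ℝ) < 1)
    refine ⟨m₇, ?_⟩
    rw [lt_div_iff₀ (by positivity)] at h4
    have h5 : (0 : ℝ) ≤ (1 / 2) ^ m₇ := by positivity
    nlinarith
  obtain ⟨C, hCd⟩ : ∃ C : ℝ, C = 3 * (1 / th) ^ 2 + (2 + 8 / th) * (1 + (k : ℝ) ^ 2) := ⟨_, rfl⟩
  have hCp : 0 < C := by rw [hCd]; positivity
  refine ⟨κ₁ ^ 2, C, P₀, P,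
    4 * P₀ + 2 * C₁ + 900 * (k + 8) + m₂ + m₃ + m₄ + m₅ + m₆ + 300 * m₇, by positivity, hCp,
    by omega, ?_⟩
  intro lam m n g hm hl hg hgD hgap
  obtain ⟨n1, n2, n3, n4, n5⟩ := nums k P₀ C₁ m (by omega)
  have hQ := hQ m (by omega)
  have hL := hL m
  have h0 := h0 m
  have hk' : ∀ r : ℕ, (r : ℝ) ≤ 5 / th ^ 2 → r ≤ k := fun r hr => by
    rw [hk]; exact Nat.le_floor hr
  have hP2 : P₀ ≤ 2 ^ P₀ := Nat.lt_two_pow_self.le
  have hPL : 2 ^ P₀ * 2 ^ (m - P₀) = 2 ^ m := by rw [← pow_add]; congr 1; omega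
  have hN1 : 1 ≤ 2 ^ m := Nat.one_le_two_pow
  obtain ⟨η, hη⟩ : ∃ η : ℝ, η = 2 ^ (m / 100) / 2 ^ m := ⟨_, rfl⟩
  have hη0 : 0 < η := by rw [hη]; positivity
  rw [← hη] at n2 n3 n4 n5
  -- the sum of the window
  have hgk : g.k ≤ k := by
    have h2 := hsep lam 1 (2 ^ P₀) (2 ^ (m - P₀)) n g hl le_rfl
    rw [hPL] at h2
    refine hk' _ (h2 ?_ hP2 hg hgD hgap).2
    rw [mul_one]
    calc C₁ ≤ 2 ^ C₁ := Nat.lt_two_pow_self.le
      _ ≤ 2 ^ (m - P₀) := Nat.pow_le_pow_right (by norm_num) (by omega)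
  have hnm : ∀ q ∈ EB.QQ m, ∀ h : Ex, Opt th lam q (2 ^ m) n h → h.nm ≤ 1 / th := by
    intro q hq h hh
    obtain ⟨-, hq1, -, -, hqN, -⟩ := ong_q hq
    have h2 := (hB th lam q (2 ^ m) n h hth hl hq1 hN1 hh).1
    have h3 : (q : ℝ) / ((2 ^ m : ℕ) : ℝ) ≤ 1 := by
      rw [div_le_one (by positivity)]; exact_mod_cast hqN
    rw [le_div_iff₀ hth]
    linarith
  have hgnm : g.nm ≤ 1 / th := by
    have h2 := (hB th lam 1 (2 ^ m) n g hth hl le_rfl hN1 hg).1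
    have h3 : ((1 : ℕ) : ℝ) / ((2 ^ m : ℕ) : ℝ) ≤ 1 := by
      rw [div_le_one (by positivity)]; exact_mod_cast hN1
    rw [le_div_iff₀ hth]
    linarith
  have hcn : ∀ (h : Ex) (i : ℕ), i < h.k → ‖h.c i‖ ≤ h.nm := by
    intro h i hi
    unfold Ex.nm
    exact single_le_sum (f := fun i => ‖h.c i‖) (fun i _ => norm_nonneg _) (mem_range.2 hi)
  -- the optimal sums of the primes
  have hopt : ∀ q, ∃ h : Ex, q ∈ EB.QQ m → (Opt th lam q (2 ^ m) n h ∧ Dst q h) := by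
    intro q
    by_cases hq : q ∈ EB.QQ m
    · obtain ⟨-, hq1, -, -, hqN, -⟩ := ong_q hq
      obtain ⟨h, hh⟩ := hO th lam q (2 ^ m) n hth hl hq1 hN1
      exact ⟨h, fun _ => hh⟩
    · exact ⟨g, fun h => absurd h hq⟩
  choose h hh using hopt
  choose z hz using fun l => hL (fun q => (h q).a l) (by omega)
  obtain ⟨Gd, hGd⟩ : ∃ Gd : ℕ → Prop, Gd = fun q => q ∈ EB.QQ m ∧
    gapq th lam q (2 ^ P₀) (2 ^ (m - P₀)) n ≤ κ₁ ^ 2 ∧ ¬ Exc q (2 ^ m) g.k g.a := ⟨_, rfl⟩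
  have hGd' : ∀ q, Gd q → q ∈ EB.QQ m ∧
    gapq th lam q (2 ^ P₀) (2 ^ (m - P₀)) n ≤ κ₁ ^ 2 ∧ ¬ Exc q (2 ^ m) g.k g.a :=
    fun q hq => by rw [hGd] at hq; exact hq
  have hkk : ∀ q, Gd q → (h q).k ≤ k := by
    intro q hq
    obtain ⟨hqQ, hgp, -⟩ := hGd' q hq
    obtain ⟨-, hq1, -, -, hqN, -⟩ := ong_q hqQ
    have h2 := hsep lam q (2 ^ P₀) (2 ^ (m - P₀)) n (h q) hl hq1 (n1 q hqQ) hP2
    rw [hPL] at h2
    exact hk' _ (h2 (hh q hqQ).1 (hh q hqQ).2 hgp).2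
  -- the condition on the sum of the window
  have hexc : ∀ q, Gd q → ∀ i < g.k, ∀ j < g.k, ∀ s : ℤ, ¬ ((q : ℤ) ∣ s) →
      4 * ((k : ℝ) + 1) * η < nd (g.a i - g.a j - (s : ℝ) / q) := by
    intro q hq i hi j hj s hs
    by_contra hcon
    push Not at hcon
    exact (hGd' q hq).2.2 ⟨i, hi, j, hj, s, hs, hcon.trans n4⟩
  -- the lifts
  have hcl : ∀ q, ∃ (α : ℕ → ℝ) (V : ℕ → ℕ), Gd q →
      ((∀ l < (h q).k, ∃ s : ℤ, α l = (h q).a l + (s : ℝ) / q) ∧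
      (∀ l < (h q).k, V l < 2 * k) ∧
      (∀ l < (h q).k, (V l < k ∧ nd (α l - g.a (V l)) ≤ ((k : ℝ) + 1) * η) ∨
        (k ≤ V l ∧ nd (α l - ((h q).a (V l - k) + (z (V l - k) q : ℝ) / q)) ≤
          ((k : ℝ) + 1) * η)) ∧
      (∀ l < (h q).k, ∀ l' < (h q).k, Sp m q (α l) (α l')) ∧
      (∀ l < (h q).k, ∀ i < g.k, Sp m q (α l) (g.a i))) := by
    intro q
    by_cases hq : Gd q
    · obtain ⟨hqQ, hgp, -⟩ := hGd' q hq
      obtain ⟨-, hq1, -, -, hqN, -⟩ := ong_q hqQ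
      have hq0 : (0 : ℝ) < q := by exact_mod_cast hq1
      have hkq := hkk q hq
      have hkqr : ((h q).k : ℝ) ≤ k := by exact_mod_cast hkq
      obtain ⟨α, s, f, c1, c2, c3, c4⟩ := hC q (h q).k g.k η 0 (h q).a
        (fun l => (h q).a l + (z l q : ℝ) / q) g.a hq1 hη0 le_rfl
        (by
          refine lt_of_le_of_lt ?_ (n2 q hqQ)
          gcongr)
        (fun l _ => ⟨z l q, by
          have e : (h q).a l + (z l q : ℝ) / q - (h q).a l - (z l q : ℝ) / q = 0 := by ring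
          rw [e, nd_zero']⟩)
        (fun i hi j hj s hs => by
          refine lt_of_le_of_lt ?_ (hexc q hq i hi j hj s hs)
          gcongr)
      have hb : ∀ x : ℝ, x ≤ 2 * (((h q).k : ℝ) + 1) * η → x ≤ 2 ^ (m / 90) / 2 ^ m := by
        intro x hx
        refine hx.trans (le_trans ?_ n3)
        gcongr
      have hb2 : ∀ x : ℝ, x ≤ (((h q).k : ℝ) + 1) * η → x ≤ ((k : ℝ) + 1) * η := by
        intro x hx
        refine hx.trans ?_
        gcongr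
      refine ⟨α, fun l => if f l < g.k then f l else k + (f l - g.k), fun _ =>
        ⟨fun l hl => ⟨s l, c1 l hl⟩, fun l hl => ?_, fun l hl => ?_, fun l hl l' hl' => ?_,
          fun l hl i hi => ?_⟩⟩
      · simp only
        split_ifs with h3
        · omega
        · rcases c2 l hl with h4 | h4
          · exact absurd h4.1 h3
          · omega
      · simp only
        rcases c2 l hl with h4 | h4
        · rw [if_pos h4.1]
          exact Or.inl ⟨by omega, hb2 _ h4.2⟩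
        · rw [if_neg (by omega), Nat.add_sub_cancel_left]
          refine Or.inr ⟨by omega, ?_⟩
          have h5 := h4.2.2
          rw [zero_add] at h5
          exact hb2 _ h5
      · rcases c3 l hl l' hl' with h4 | h4
        · exact Or.inl (hb _ h4)
        · exact Or.inr fun t => by rw [← hη]; exact h4 t
      · rcases c4 l hl i hi with h4 | h4
        · exact Or.inl (hb _ h4)
        · exact Or.inr fun t => by rw [← hη]; exact h4 t
    · exact ⟨fun _ => 0, fun _ => 0, fun h3 => absurd h3 hq⟩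
  choose α V hcl using hcl
  have hgg : ∀ q, Gd q → ∀ i < g.k, ∀ j < g.k, Sp m q (g.a i) (g.a j) := by
    intro q hq i hi j hj
    obtain ⟨hqQ, -, -⟩ := hGd' q hq
    obtain ⟨-, hq1, -, -, hqN, -⟩ := ong_q hqQ
    have hq0 : (0 : ℝ) < q := by exact_mod_cast hq1
    by_cases hn : nd (g.a i - g.a j) ≤ 2 ^ (m / 90) / 2 ^ m
    · exact Or.inl hn
    · push Not at hn
      right
      intro t
      have hle : η ≤ 2 * ((k : ℝ) + 1) * η := by
        have : (0 : ℝ) ≤ k := Nat.cast_nonneg k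
        nlinarith
      rw [← hη]
      by_cases ht : (q : ℤ) ∣ t
      · obtain ⟨u, rfl⟩ := ht
        have e : g.a i - g.a j - ((q * u : ℤ) : ℝ) / q = g.a i - g.a j - (u : ℤ) := by
          push_cast
          field_simp
        rw [e, nd_sub_int]
        exact (hle.trans n3).trans hn.le
      · refine (hle.trans ?_).trans (hexc q hq i hi j hj t ht).le
        have : (0 : ℝ) ≤ k := Nat.cast_nonneg k
        nlinarith
  -- the family
  obtain ⟨cc, hcc⟩ : ∃ cc : ℕ → ℕ → ℝ, cc = fun l q => (h q).a l + (z l q : ℝ) / q := ⟨_, rfl⟩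
  obtain ⟨bs, hbs⟩ : ∃ bs : ℕ → ℕ → ℝ, bs = fun v q => if v < k then g.a v else cc (v - k) q :=
    ⟨_, rfl⟩
  obtain ⟨φ, hφ⟩ : ∃ φ, φ = ph k Gd (fun q => (h q).k) α V bs g.a := ⟨_, rfl⟩
  obtain ⟨u, hu⟩ : ∃ u, u = uu k Gd (fun q => (h q).k) (fun q => (h q).c) V g.k g.c := ⟨_, rfl⟩
  have hadm : Adm m (k * (2 * k) + k) (1 / th) φ u := by
    rw [hφ, hu]
    refine Pool.Agent.H72.G9.adm (δ := ((k : ℝ) + 1) * η) (cc := cc) (by positivity) n5 (by positivity)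
      (fun a β hβ => h0 a β (by omega) hβ) (fun l β hβ => ?_) (fun v q => by rw [hbs]) ?_ ?_ ?_
      (fun q hq => (hcl q hq).2.2.2.1) (fun q hq => (hcl q hq).2.2.2.2) hgg
    · apply hz l β
      intro q hq
      have h3 := hβ q hq
      rw [hcc] at h3
      exact h3
    · intro q hq l hl'
      have h3 := (hcl q hq).2.2.1 l hl'
      rw [hcc]
      exact h3
    · intro q hq l hl'
      exact (hcn (h q) l hl').trans (hnm q (hGd' q hq).1 _ (hh q (hGd' q hq).1).1)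
    · intro i hi
      exact (hcn g i hi).trans hgnm
  -- restricted families
  have hadP : Adm m P P φ u := by
    rw [hφ, hu] at hadm ⊢
    exact adm_mono hPth (by omega) (fun a => h0 a (fun _ => a) (by omega)
      (fun q _ => by rw [sub_self, nd_zero']; positivity)) hadm
  obtain ⟨r, γ, hr, hγ⟩ := cover (n := n)
    (Pool.Agent.H50.GSW.pf_BSL Pool.Agent.H76.GSW.pf_GEX) (by positivity : 0 < th / 4) hl hN1
  have hsepq : ∀ q, Gd q → ∀ i < (h q).k, ∀ l < (h q).k, i ≠ l →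
      4 / th ^ 2 * q / ((2 ^ m : ℕ) : ℝ) ≤ nd (q * ((h q).a i - (h q).a l)) := by
    intro q hq
    obtain ⟨hqQ, hgp, -⟩ := hGd' q hq
    obtain ⟨-, hq1, -, -, hqN, -⟩ := ong_q hqQ
    have h2 := hsep lam q (2 ^ P₀) (2 ^ (m - P₀)) n (h q) hl hq1 (n1 q hqQ) hP2
    rw [hPL] at h2
    exact (h2 (hh q hqQ).1 (hh q hqQ).2 hgp).1
  have hsepg : ∀ i < g.k, ∀ l < g.k, i ≠ l →
      4 / th ^ 2 * (1 : ℕ) / ((2 ^ m : ℕ) : ℝ) ≤ nd ((1 : ℕ) * (g.a i - g.a l)) := by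
    have h2 := hsep lam 1 (2 ^ P₀) (2 ^ (m - P₀)) n g hl le_rfl
    rw [hPL] at h2
    refine (h2 ?_ hP2 hg hgD hgap).1
    rw [mul_one]
    calc C₁ ≤ 2 ^ C₁ := Nat.lt_two_pow_self.le
      _ ≤ 2 ^ (m - P₀) := Nat.pow_le_pow_right (by norm_num) (by omega)
  have hcase : ∀ q ∈ EB.QQ m, ∀ j < P, u j q ≠ 0 →
      (∃ i < P, nd (φ j q - γ i) ≤ (P : ℝ) / 2 ^ m) ∨
      th / 2 ≤ ‖EB.crq lam q (2 ^ m) n (φ j q) - EB.crq lam 1 (2 ^ m) n (φ j q)‖ := by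
    intro q hq j _ hju
    have hnear : th / 4 ≤ ‖EB.crq lam 1 (2 ^ m) n (φ j q)‖ →
        ∃ i < P, nd (φ j q - γ i) ≤ (P : ℝ) / 2 ^ m := by
      intro h3
      obtain ⟨i, hi, hi'⟩ := hγ _ h3
      refine ⟨i, ?_, hi'.trans ?_⟩
      · have h4 : (r : ℝ) ≤ P := by
          apply hPb
          refine hr.trans ?_
          have e : 4 / (th / 4) ^ 2 = 64 / th ^ 2 := by field_simp; norm_num
          rw [e, div_le_div_iff₀ (by positivity) (by positivity)]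
          nlinarith [sq_nonneg th]
        have h5 : r ≤ P := by exact_mod_cast h4
        omega
      · push_cast
        apply div_le_div_of_nonneg_right _ (by positivity)
        apply hPb
        have e : 1 / (th / 4) ^ 2 = 16 / th ^ 2 := by field_simp; norm_num
        rw [e, div_le_div_iff₀ (by positivity) (by positivity)]
        nlinarith [sq_nonneg th]
    rw [hu] at hju
    obtain ⟨hG, h3 | h3⟩ := uu_key (α := α) (bs := bs) hju
    · obtain ⟨l, hl', e⟩ := h3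
      rw [← hφ] at e
      obtain ⟨s, hs⟩ := (hcl q hG).1 l hl'
      obtain ⟨-, hq1, -, -, hqN, -⟩ := ong_q hq
      have h4 := vis Pool.Agent.H76.GSW.pf_GEX hth hq1 hN1 (hh q hq).1 le_rfl (hsepq q hG)
        (hnm q hq _ (hh q hq).1) hl'
      rw [← crq_shift lam q (2 ^ m) n hq1 _ s, ← hs, ← e] at h4
      by_cases h5 : th / 4 ≤ ‖EB.crq lam 1 (2 ^ m) n (φ j q)‖
      · exact Or.inl (hnear h5)
      · right
        have h6 := norm_sub_norm_le (EB.crq lam q (2 ^ m) n (φ j q))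
          (EB.crq lam 1 (2 ^ m) n (φ j q))
        push Not at h5
        linarith
    · obtain ⟨l, hl', e⟩ := h3
      rw [← hφ] at e
      left
      apply hnear
      rw [e]
      have h4 := vis Pool.Agent.H76.GSW.pf_GEX hth le_rfl hN1 hg le_rfl hsepg hgnm hl'
      linarith
  have hmP : (P : ℝ) ^ 4 * (1 / 2) ^ (m / 300) ≤ 1 / ((P : ℝ) + 1) := by
    refine le_trans ?_ hm₇
    apply mul_le_mul_of_nonneg_left _ (by positivity)
    exact pow_le_pow_of_le_one (by norm_num) (by norm_num) (by omega)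
  obtain ⟨u', hu'R, hle⟩ := repl hth hth1 hl (fun q hq F hF => hN m (2 ^ m) n q F (by omega)
    (by omega) hq hF) hmP hP4 (by
      have : 576 / th ^ 4 ≤ 577 / th ^ 4 := by
        apply div_le_div_of_nonneg_right (by norm_num) (by positivity)
      linarith) hadP γ hcase
  have hfv := hle.trans ((hU lam m n (by omega) hl).2.2.1 φ u' hu'R)
  rw [fv_tm] at hfv
  have hfe : ∀ q, tm lam q (2 ^ m) n (fam P φ u q) =
      tm lam q (2 ^ m) n (fam (k * (2 * k) + k) φ u q) := fun q =>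
    tm_congr _ _ _ _ _ _ (fun x => by rw [hφ, hu]; exact fam_more hPJ (by omega) q x)
  simp only [hfe] at hfv
  -- one prime
  have hone : ∀ q ∈ EB.QQ m, En th lam q (2 ^ m) n - En th lam 1 (2 ^ m) n -
      lin lam q (2 ^ m) n g ≤ tm lam q (2 ^ m) n (fam (k * (2 * k) + k) φ u q) +
      ((1 / th) ^ 2 * (1 / 2) ^ (m / 300) + (2 + 8 / th) *
        (EB.ind (κ₁ ^ 2 < gapq th lam q (2 ^ P₀) (2 ^ (m - P₀)) n) +
          EB.ind (Exc q (2 ^ m) g.k g.a))) := by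
    intro q hq
    obtain ⟨-, hq1, -, -, hqN, -⟩ := ong_q hq
    by_cases hG : Gd q
    · obtain ⟨d1, d2, d3, d4, d5⟩ := hcl q hG
      have h3 : ∀ x, (fam (k * (2 * k) + k) φ u q).f x = (sb ⟨(h q).k, (h q).c, α q⟩ g).f x := by
        intro x
        rw [hφ, hu]
        exact fam_good k Gd (fun q => (h q).k) (fun q => (h q).c) α V bs g q hG (hkk q hG)
          (fun l hl' => d2 l hl') hgk x
      rw [tm_congr _ _ _ _ _ _ h3]
      have h4 := h1 th lam q (2 ^ m) n g (h q) ⟨(h q).k, (h q).c, α q⟩ hth hq1 hN1 hg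
        (hh q hq).1 rfl (fun _ _ => rfl) d1
      have h5 := hN m (2 ^ m) n q ⟨(h q).k, (h q).c, α q⟩ (by omega) (by omega) hq
        (fun i hi j hj _ _ => d4 i hi j hj)
      have h6' : (h q).nm ≤ 1 / th := hnm q hq _ (hh q hq).1
      have h6 : (⟨(h q).k, (h q).c, α q⟩ : Ex).nm ≤ 1 / th := h6'
      have h7 : (⟨(h q).k, (h q).c, α q⟩ : Ex).nm ^ 2 ≤ (1 / th) ^ 2 :=
        pow_le_pow_left₀ (nm_nonneg _) h6 2
      have h8 := mul_le_mul_of_nonneg_right h7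
        (by positivity : (0 : ℝ) ≤ (1 / 2) ^ (m / 300))
      have h9 := (abs_le.1 h5).1
      have h10 := ind_nonneg (κ₁ ^ 2 < gapq th lam q (2 ^ P₀) (2 ^ (m - P₀)) n)
      have h11 := ind_nonneg (Exc q (2 ^ m) g.k g.a)
      have h12 : 0 ≤ (2 + 8 / th) * (EB.ind (κ₁ ^ 2 < gapq th lam q (2 ^ P₀) (2 ^ (m - P₀)) n) +
          EB.ind (Exc q (2 ^ m) g.k g.a)) := by positivity
      unfold tm
      linarith
    · have h3 : ∀ x, (fam (k * (2 * k) + k) φ u q).f x = 0 := by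
        intro x
        rw [hφ, hu]
        exact fam_bad k Gd (fun q => (h q).k) (fun q => (h q).c) α V bs g q hG x
      rw [tm_zero _ _ _ _ _ h3]
      have h4 : 1 ≤ EB.ind (κ₁ ^ 2 < gapq th lam q (2 ^ P₀) (2 ^ (m - P₀)) n) +
          EB.ind (Exc q (2 ^ m) g.k g.a) := by
        by_cases h5 : κ₁ ^ 2 < gapq th lam q (2 ^ P₀) (2 ^ (m - P₀)) n
        · rw [ind_true h5]
          linarith [ind_nonneg (Exc q (2 ^ m) g.k g.a)]
        · by_cases h6 : Exc q (2 ^ m) g.k g.a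
          · rw [ind_true h6]
            linarith [ind_nonneg (κ₁ ^ 2 < gapq th lam q (2 ^ P₀) (2 ^ (m - P₀)) n)]
          · exfalso
            apply hG
            rw [hGd]
            exact ⟨hq, not_lt.1 h5, h6⟩
      have h5 := (hB th lam q (2 ^ m) n (h q) hth hl hq1 hN1 (hh q hq).1).2.2.1
      have h6 : (q : ℝ) / ((2 ^ m : ℕ) : ℝ) ≤ 1 := by
        rw [div_le_one (by positivity)]; exact_mod_cast hqN
      have h7 := (hB th lam 1 (2 ^ m) n g hth hl le_rfl hN1 hg).2.1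
      have h8 := (abs_le.1 (lin_le hl (n := n) hq1 hqN g)).1
      have h9 : 8 * g.nm ≤ 8 / th := by
        have : 8 / th = 8 * (1 / th) := by ring
        linarith
      have h10 : (2 + 8 / th) * 1 ≤ (2 + 8 / th) *
          (EB.ind (κ₁ ^ 2 < gapq th lam q (2 ^ P₀) (2 ^ (m - P₀)) n) +
          EB.ind (Exc q (2 ^ m) g.k g.a)) := mul_le_mul_of_nonneg_left h4 (by positivity)
      have h11 : 0 ≤ (1 / th) ^ 2 * ((1 : ℝ) / 2) ^ (m / 300) := by positivity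
      linarith
  -- the sum over the primes
  have hsum : ∑ q ∈ EB.QQ m, 1 / (q : ℝ) * (En th lam q (2 ^ m) n - En th lam 1 (2 ^ m) n -
      lin lam q (2 ^ m) n g) ≤
      ∑ q ∈ EB.QQ m, 1 / (q : ℝ) * tm lam q (2 ^ m) n (fam (k * (2 * k) + k) φ u q) +
      ((∑ q ∈ EB.QQ m, 1 / (q : ℝ)) * ((1 / th) ^ 2 * (1 / 2) ^ (m / 300)) + (2 + 8 / th) *
        (∑ q ∈ EB.QQ m, 1 / (q : ℝ) *
          EB.ind (κ₁ ^ 2 < gapq th lam q (2 ^ P₀) (2 ^ (m - P₀)) n) +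
          ∑ q ∈ EB.QQ m, 1 / (q : ℝ) * EB.ind (Exc q (2 ^ m) g.k g.a))) := by
    rw [← sum_add_distrib, mul_sum, sum_mul, ← sum_add_distrib, ← sum_add_distrib]
    apply sum_le_sum
    intro q hq
    have h3 : (0 : ℝ) ≤ 1 / (q : ℝ) := by positivity
    refine (mul_le_mul_of_nonneg_left (hone q hq) h3).trans (le_of_eq ?_)
    ring
  have he := exc_sum (m := m) (by omega) g.k g.a
  have hgk2 : (g.k : ℝ) ^ 2 ≤ (k : ℝ) ^ 2 := by
    have : (g.k : ℝ) ≤ k := by exact_mod_cast hgk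
    gcongr
  have he2 := he.trans (mul_le_mul_of_nonneg_right hgk2
    (by positivity : (0 : ℝ) ≤ (1 / 2) ^ (m / 1000)))
  have hp : ((1 : ℝ) / 2) ^ (m / 300) ≤ (1 / 2) ^ (m / 1000) :=
    pow_le_pow_of_le_one (by norm_num) (by norm_num) (by omega)
  have hi0 : 0 ≤ ∑ q ∈ EB.QQ m, 1 / (q : ℝ) *
      EB.ind (κ₁ ^ 2 < gapq th lam q (2 ^ P₀) (2 ^ (m - P₀)) n) :=
    sum_nonneg fun q _ => mul_nonneg (by positivity) (ind_nonneg _)
  obtain ⟨I, hI⟩ : ∃ I, I = ∑ q ∈ EB.QQ m, 1 / (q : ℝ) *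
      EB.ind (κ₁ ^ 2 < gapq th lam q (2 ^ P₀) (2 ^ (m - P₀)) n) := ⟨_, rfl⟩
  obtain ⟨e, hee⟩ : ∃ e : ℝ, e = (1 / 2) ^ (m / 1000) := ⟨_, rfl⟩
  have he0 : 0 ≤ e := by rw [hee]; positivity
  rw [← hI] at hsum hi0 ⊢
  rw [← hee] at he2 hp ⊢
  have p1 : (∑ q ∈ EB.QQ m, 1 / (q : ℝ)) * ((1 / th) ^ 2 * (1 / 2) ^ (m / 300)) ≤
      3 * ((1 / th) ^ 2 * e) := by
    apply mul_le_mul hQ.2 _ (by positivity) (by norm_num)
    exact mul_le_mul_of_nonneg_left hp (by positivity)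
  have p2 : (2 + 8 / th) * (I + ∑ q ∈ EB.QQ m, 1 / (q : ℝ) * EB.ind (Exc q (2 ^ m) g.k g.a)) ≤
      (2 + 8 / th) * (I + (k : ℝ) ^ 2 * e) :=
    mul_le_mul_of_nonneg_left (by linarith) (by positivity)
  have p3 : C * (I + e) = 3 * (1 / th) ^ 2 * I + 3 * ((1 / th) ^ 2 * e) +
      (2 + 8 / th) * (I + (k : ℝ) ^ 2 * e) + (2 + 8 / th) * ((k : ℝ) ^ 2 * I + e) := by
    rw [hCd]; ring
  have p4 : 0 ≤ 3 * (1 / th) ^ 2 * I := by positivity
  have p5 : 0 ≤ (2 + 8 / th) * ((k : ℝ) ^ 2 * I + e) := by positivity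
  linarith

end Pool.Agent.H72.G0
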