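import Pool.Agent.H72.G0.Vis

/-!
# Row UXR of the board g0 (MP_c59857_nt, theorem (H0)): cover and replacement
-/

set_option autoImplicit false

open Finset Pool.Agent.H6.N4D Pool.Agent.H93 Pool.Agent.H93.GS Pool.Agent.H6.GS2 Pool.Agent.H6.G9
  Pool.Agent.H6.G0

namespace Pool.Agent.H72.G0

open Pool.Agent.H48.GSW (ong_q)
open Pool.Agent.H72.G9 (tm fv_tm nd_zero')

/-- few points cover the frequencies of the large correlations -/
theorem cover (hB : T_BSL) {τ : ℝ} (hτ : 0 < τ) {lam : ℕ → ℝ}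
    (hl : ∀ m, |lam m| ≤ 1) {N n : ℕ} (hN : 1 ≤ N) :
    ∃ (r : ℕ) (γ : ℕ → ℝ), (r : ℝ) ≤ 4 / τ ^ 2 ∧ ∀ β : ℝ, τ ≤ ‖EB.crq lam 1 N n β‖ →
      ∃ i < r, nd (β - γ i) ≤ 1 / τ ^ 2 / N := by
  classical
  have hN0 : (0 : ℝ) < N := by exact_mod_cast hN
  obtain ⟨S, hS⟩ : ∃ S : ℕ → Prop, S = fun r => ∃ γ : ℕ → ℝ,
      (∀ i < r, τ ≤ ‖EB.crq lam 1 N n (γ i)‖) ∧
      ∀ i < r, ∀ l < r, i ≠ l → 1 / τ ^ 2 / N ≤ nd (γ i - γ l) := ⟨_, rfl⟩
  have hbd : ∀ r, S r → (r : ℝ) ≤ 4 / τ ^ 2 := by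
    intro r hr
    rw [hS] at hr
    obtain ⟨γ, h1, h2⟩ := hr
    have h3 := hB 1 N n r (1 / τ ^ 2) γ (fun m => (lam m : ℂ)) le_rfl hN (by positivity)
      (fun i hi l hl' hil => by
        have := h2 i hi l hl' hil
        simpa using this)
    have h4 : (r : ℝ) * τ ^ 2 ≤ ∑ i ∈ range r,
        ‖ac 1 N n (fun m => (lam m : ℂ) * ee (-(γ i * m)))‖ ^ 2 := by
      calc (r : ℝ) * τ ^ 2 = ∑ _i ∈ range r, τ ^ 2 := by rw [sum_const, card_range, nsmul_eq_mul]
        _ ≤ _ := by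
            apply sum_le_sum
            intro i hi
            exact pow_le_pow_left₀ hτ.le (h1 i (mem_range.1 hi)) 2
    have h5 : ar 1 N n (fun m => ‖(lam m : ℂ)‖ ^ 2) ≤ 1 := by
      calc _ ≤ ar 1 N n (fun _ => 1) := by
            apply ar_mono
            intro m _ _
            rw [Complex.norm_real, Real.norm_eq_abs]
            exact pow_le_one₀ (abs_nonneg _) (hl m)
        _ = 1 := by
            unfold ar
            have h6 : (Ioc n (n + N)).filter (fun m => 1 ∣ m) = Ioc n (n + N) :=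
              filter_true_of_mem fun m _ => one_dvd m
            rw [h6, sum_const, Nat.card_Ioc, nsmul_eq_mul]
            have h7 : n + N - n = N := by omega
            rw [h7]
            push_cast
            field_simp
    have h6 : (0 : ℝ) ≤ 1 + ((1 : ℕ) : ℝ) / N + r / (2 * (1 / τ ^ 2)) := by positivity
    have h7 : ((1 : ℕ) : ℝ) / N ≤ 1 := by
      rw [div_le_one hN0]; exact_mod_cast hN
    have h8 : (r : ℝ) / (2 * (1 / τ ^ 2)) = r * τ ^ 2 / 2 := by field_simp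
    have h9 := h4.trans (h3.trans (mul_le_mul_of_nonneg_left h5 h6))
    rw [h8] at h9
    rw [le_div_iff₀ (by positivity)]
    linarith
  have h0 : S 0 := by
    rw [hS]
    exact ⟨fun _ => 0, fun i hi => absurd hi (Nat.not_lt_zero i),
      fun i hi => absurd hi (Nat.not_lt_zero i)⟩
  obtain ⟨r, hr⟩ : ∃ r, r = Nat.findGreatest S ⌊4 / τ ^ 2⌋₊ := ⟨_, rfl⟩
  have hSr : S r := by
    rw [hr]
    exact Nat.findGreatest_spec (Nat.zero_le _) h0
  have hSr' := hSr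
  rw [hS] at hSr'
  obtain ⟨γ, h1, h2⟩ := hSr'
  refine ⟨r, γ, hbd r hSr, ?_⟩
  intro β hβ
  by_contra hcon
  push Not at hcon
  have hS1 : S (r + 1) := by
    rw [hS]
    refine ⟨fun i => if i = r then β else γ i, ?_, ?_⟩
    · intro i hi
      by_cases h3 : i = r
      · simp only [h3, if_true]
        exact hβ
      · simp only [h3, if_false]
        exact h1 i (by omega)
    · intro i hi l hl' hil
      by_cases h3 : i = r
      · have h4 : l ≠ r := fun h => hil (h3.trans h.symm)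
        simp only [h3, h4, if_true, if_false]
        exact (hcon l (by omega)).le
      · by_cases h4 : l = r
        · simp only [h3, h4, if_true, if_false]
          rw [nd_sub_comm]
          exact (hcon i (by omega)).le
        · simp only [h3, h4, if_false]
          exact h2 i (by omega) l (by omega) hil
  have h3 : r + 1 ≤ ⌊4 / τ ^ 2⌋₊ := Nat.le_floor (hbd _ hS1)
  have h4 : r < r + 1 := by omega
  rw [hr] at h4
  exact Nat.findGreatest_is_greatest h4 (by rw [← hr]; exact h3) (by rw [← hr]; exact hS1)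

lemma ar_one (N n : ℕ) (hN : 1 ≤ N) : ar 1 N n (fun _ => 1) = 1 := by
  have hN0 : (0 : ℝ) < N := by exact_mod_cast hN
  unfold ar
  have h6 : (Ioc n (n + N)).filter (fun m => 1 ∣ m) = Ioc n (n + N) :=
    filter_true_of_mem fun m _ => one_dvd m
  rw [h6, sum_const, Nat.card_Ioc, nsmul_eq_mul]
  have h7 : n + N - n = N := by omega
  rw [h7]
  push_cast
  field_simp

/-- sums of small mean square have small values -/
theorem small_tm {P m n q : ℕ} {lam : ℕ → ℝ} (hl : ∀ m, |lam m| ≤ 1) {φ : ℕ → ℕ → ℝ}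
    {u : ℕ → ℕ → ℂ} (had : Adm m P P φ u) (hq : q ∈ EB.QQ m)
    (hN : ∀ (F : Ex), (∀ i < F.k, ∀ j < F.k, F.c i ≠ 0 → F.c j ≠ 0 → Sp m q (F.a i) (F.a j)) →
      |nrm q (2 ^ m) n F| ≤ F.nm ^ 2 * (1 / 2) ^ (m / 300)) {δ : ℝ}
    (hm : (P : ℝ) ^ 4 * (1 / 2) ^ (m / 300) ≤ δ)
    (hF : ar 1 (2 ^ m) n (fun x => ‖(fam P φ u q).f x‖ ^ 2) ≤ δ) :
    tm lam q (2 ^ m) n (fam P φ u q) ≤ 6 * √δ := by
  obtain ⟨-, hq1, -, -, hqN, -⟩ := ong_q hq
  have hN1 : 1 ≤ 2 ^ m := Nat.one_le_two_pow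
  obtain ⟨F, hFe⟩ : ∃ F, F = fam P φ u q := ⟨_, rfl⟩
  rw [← hFe] at hF ⊢
  have hδ : 0 ≤ δ := le_trans (by positivity) hm
  have h1 : F.nm ≤ (P : ℝ) ^ 2 := by
    rw [hFe]
    unfold Ex.nm fam
    simp only
    calc ∑ j ∈ range P, ‖u j q‖ ≤ ∑ _j ∈ range P, (P : ℝ) := sum_le_sum fun j _ => had.cb j q
      _ = _ := by rw [sum_const, card_range, nsmul_eq_mul]; ring
  have h2 : |nrm q (2 ^ m) n F| ≤ δ := by
    have h3 := hN F (by
      intro i hi j hj h3 h4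
      rw [hFe] at hi hj h3 h4 ⊢
      exact had.cl q hq i hi j hj h3 h4)
    refine h3.trans (le_trans ?_ hm)
    apply mul_le_mul_of_nonneg_right _ (by positivity)
    calc F.nm ^ 2 ≤ ((P : ℝ) ^ 2) ^ 2 := pow_le_pow_left₀ (nm_nonneg F) h1 2
      _ = _ := by ring
  have h3 : ar q (2 ^ m) n (fun x => ‖F.f x‖ ^ 2) ≤ 2 * δ := by
    unfold nrm at h2
    have := (abs_le.1 h2).2
    linarith
  have h4 : ar q (2 ^ m) n (fun _ => 1) ≤ 2 := by
    refine (ar_one_le q (2 ^ m) n hq1 hN1).trans ?_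
    have : (q : ℝ) / ((2 ^ m : ℕ) : ℝ) ≤ 1 := by
      rw [div_le_one (by positivity)]; exact_mod_cast hqN
    linarith
  have h5 : ar q (2 ^ m) n (fun x => ‖F.f x‖) ≤ 2 * √δ := by
    have h6 := Pool.Agent.H28.GS2.ar_sq_le q (2 ^ m) n (fun x => ‖F.f x‖)
    have h7 : 0 ≤ ar q (2 ^ m) n (fun x => ‖F.f x‖ ^ 2) := ar_nonneg _ _ _ fun _ => by positivity
    have h8 : ar q (2 ^ m) n (fun x => ‖F.f x‖) ^ 2 ≤ (2 * √δ) ^ 2 := by
      rw [mul_pow, Real.sq_sqrt hδ]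
      calc _ ≤ _ := h6
        _ ≤ 2 * (2 * δ) := mul_le_mul h4 h3 h7 (by norm_num)
        _ = _ := by ring
    exact abs_le_of_sq_le_sq' h8 (by positivity) |>.2
  have h6 : ar 1 (2 ^ m) n (fun x => ‖F.f x‖) ≤ √δ := by
    have h7 := Pool.Agent.H28.GS2.ar_sq_le 1 (2 ^ m) n (fun x => ‖F.f x‖)
    rw [ar_one _ _ hN1, one_mul] at h7
    apply Real.le_sqrt_of_sq_le
    exact h7.trans hF
  have h7 : ‖tx lam q (2 ^ m) n F‖ ≤ 3 * √δ := by
    unfold tx
    have e : ac 1 (2 ^ m) n (fun m => (EB.D q m : ℂ) * lam m * (starRingEnd ℂ) (F.f m)) =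
        ac 1 (2 ^ m) n (fun m => (EB.D q m : ℂ) * (lam m * (starRingEnd ℂ) (F.f m))) :=
      ac_congr _ _ _ fun m _ _ => by ring
    have hb : ∀ q', ‖ac q' (2 ^ m) n (fun m => (lam m : ℂ) * (starRingEnd ℂ) (F.f m))‖ ≤
        ar q' (2 ^ m) n (fun x => ‖F.f x‖) := by
      intro q'
      refine (norm_ac_le _ _ _ _).trans (ar_mono _ _ _ fun x _ _ => ?_)
      rw [norm_mul, Complex.norm_real, Real.norm_eq_abs, Complex.norm_conj]
      exact mul_le_of_le_one_left (norm_nonneg _) (hl x)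
    rw [e, ac_D]
    refine (norm_sub_le _ _).trans ?_
    have := hb q
    have := hb 1
    linarith
  unfold tm
  have h8 : (tx lam q (2 ^ m) n F).re ≤ 3 * √δ := (Complex.re_le_norm _).trans h7
  have h9 : 0 ≤ ar 1 (2 ^ m) n (fun x => ‖F.f x‖ ^ 2) := ar_nonneg _ _ _ fun _ => by positivity
  linarith

end Pool.Agent.H72.G0
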