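import Pool.Agent.H72.G0.Rep

/-!
# Row UXR of the board g0 (MP_c59857_nt, theorem (H0)): replacement
-/

set_option autoImplicit false

open Finset Pool.Agent.H6.N4D Pool.Agent.H93 Pool.Agent.H93.GS Pool.Agent.H6.GS2 Pool.Agent.H6.G9
  Pool.Agent.H6.G0

namespace Pool.Agent.H72.G0

open Pool.Agent.H48.GSW (ong_q)
open Pool.Agent.H72.G9 (tm fv_tm nd_zero')

/-- the sum of one exponential -/
lemma fam_one {P : ℕ} (φ : ℕ → ℕ → ℝ) (u : ℕ → ℕ → ℂ) (q j : ℕ) (t : ℂ) (hj : j < P)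
    (hu : ∀ i, u i q = if i = j then t else 0) (x : ℕ) :
    (fam P φ u q).f x = t * ee (φ j q * x) := by
  unfold fam Ex.f
  simp only [hu, ite_mul, zero_mul]
  rw [sum_ite_eq' (range P) j, if_pos (mem_range.2 hj)]

/-- families with visible frequencies can be replaced by restricted families -/
theorem repl {P m n : ℕ} {th : ℝ} {lam : ℕ → ℝ} (hth : 0 < th) (hth1 : th ≤ 1)
    (hl : ∀ m, |lam m| ≤ 1)
    (hN : ∀ q ∈ EB.QQ m, ∀ (F : Ex), (∀ i < F.k, ∀ j < F.k, F.c i ≠ 0 → F.c j ≠ 0 →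
      Sp m q (F.a i) (F.a j)) → |nrm q (2 ^ m) n F| ≤ F.nm ^ 2 * (1 / 2) ^ (m / 300))
    (hm : (P : ℝ) ^ 4 * (1 / 2) ^ (m / 300) ≤ 1 / ((P : ℝ) + 1)) (hP4 : 4 ≤ P)
    (hP : 576 / th ^ 4 ≤ (P : ℝ) + 1) {φ : ℕ → ℕ → ℝ} {u : ℕ → ℕ → ℂ} (had : Adm m P P φ u)
    (γ : ℕ → ℝ) (hcase : ∀ q ∈ EB.QQ m, ∀ j < P, u j q ≠ 0 →
      (∃ i < P, nd (φ j q - γ i) ≤ (P : ℝ) / 2 ^ m) ∨
      th / 2 ≤ ‖EB.crq lam q (2 ^ m) n (φ j q) - EB.crq lam 1 (2 ^ m) n (φ j q)‖) :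
    ∃ u', AdR P m n φ u' ∧ fv lam m n P φ u ≤ fv lam m n P φ u' := by
  classical
  have hP0 : (0 : ℝ) < (P : ℝ) + 1 := by positivity
  have hP4r : (4 : ℝ) ≤ P := by exact_mod_cast hP4
  have hN1 : 1 ≤ 2 ^ m := Nat.one_le_two_pow
  obtain ⟨δ, hδ⟩ : ∃ δ : ℝ, δ = 1 / ((P : ℝ) + 1) := ⟨_, rfl⟩
  have hδ0 : 0 ≤ δ := by rw [hδ]; positivity
  have hδth : δ ≤ th ^ 4 / 576 := by
    rw [hδ, div_le_iff₀ hP0]
    rw [div_le_iff₀ (by positivity)] at hP
    linarith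
  have hsq : 6 * √δ ≤ th ^ 2 / 4 := by
    have h1 : √δ ≤ th ^ 2 / 24 := by
      rw [Real.sqrt_le_left (by positivity)]
      calc δ ≤ th ^ 4 / 576 := hδth
        _ = _ := by ring
    linarith
  obtain ⟨Bad, hBad⟩ : ∃ Bad : ℕ → Prop, Bad = fun q => q ∈ EB.QQ m ∧
      ¬ (∀ j < P, u j q ≠ 0 → ∃ i < P, nd (φ j q - γ i) ≤ (P : ℝ) / 2 ^ m) ∧
      ¬ (δ ≤ ar 1 (2 ^ m) n (fun x => ‖(fam P φ u q).f x‖ ^ 2)) := ⟨_, rfl⟩
  have hj : ∀ q, ∃ j, Bad q → (j < P ∧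
      th / 2 ≤ ‖EB.crq lam q (2 ^ m) n (φ j q) - EB.crq lam 1 (2 ^ m) n (φ j q)‖) := by
    intro q
    by_cases hq : Bad q
    · have hq' := hq
      rw [hBad] at hq'
      obtain ⟨h1, h2, -⟩ := hq'
      push Not at h2
      obtain ⟨j, hj, hu, hn⟩ := h2
      refine ⟨j, fun _ => ⟨hj, ?_⟩⟩
      rcases hcase q h1 j hj hu with ⟨i, hi, hi'⟩ | h3
      · exact absurd hi' (not_le.2 (hn i hi))
      · exact h3
    · exact ⟨0, fun h => absurd h hq⟩
  choose j hj using hj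
  obtain ⟨t, ht⟩ : ∃ t : ℕ → ℂ, t = fun q => EB.crq lam q (2 ^ m) n (φ (j q) q) -
      EB.crq lam 1 (2 ^ m) n (φ (j q) q) := ⟨_, rfl⟩
  have htl : ∀ q, Bad q → th / 2 ≤ ‖t q‖ := by
    intro q hq
    rw [ht]
    exact (hj q hq).2
  have hQ : ∀ q, Bad q → q ∈ EB.QQ m := fun q hq => by rw [hBad] at hq; exact hq.1
  have htu : ∀ q, Bad q → ‖t q‖ ≤ 4 := by
    intro q hq
    obtain ⟨-, hq1, -, -, hqN, -⟩ := ong_q (hQ q hq)
    rw [ht]
    refine (norm_sub_le _ _).trans ?_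
    have h1 := crq_le hl q (2 ^ m) n hq1 hN1 (φ (j q) q)
    have h2 := crq_le hl 1 (2 ^ m) n le_rfl hN1 (φ (j q) q)
    have h3 : (q : ℝ) / ((2 ^ m : ℕ) : ℝ) ≤ 1 := by
      rw [div_le_one (by positivity)]; exact_mod_cast hqN
    have h4 : ((1 : ℕ) : ℝ) / ((2 ^ m : ℕ) : ℝ) ≤ 1 := by
      rw [div_le_one (by positivity)]; exact_mod_cast hN1
    linarith
  obtain ⟨u', hu'⟩ : ∃ u' : ℕ → ℕ → ℂ, u' = fun i q => if Bad q then
      (if i = j q then t q else 0) else u i q := ⟨_, rfl⟩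
  have hub : ∀ q, Bad q → ∀ i, u' i q = if i = j q then t q else 0 := by
    intro q hq i
    rw [hu']
    simp only [if_pos hq]
  have hug : ∀ q, ¬ Bad q → ∀ i, u' i q = u i q := by
    intro q hq i
    rw [hu']
    simp only [if_neg hq]
  have hfg : ∀ q, ¬ Bad q → ∀ x, (fam P φ u' q).f x = (fam P φ u q).f x := by
    intro q hq x
    unfold fam Ex.f
    simp only [hug q hq]
  have hfb : ∀ q, Bad q → ∀ x : ℕ, (fam P φ u' q).f x = t q * ee (φ (j q) q * x) := by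
    intro q hq x
    exact fam_one φ u' q (j q) (t q) (hj q hq).1 (hub q hq) x
  have harb : ∀ q, Bad q → ar 1 (2 ^ m) n (fun x => ‖(fam P φ u' q).f x‖ ^ 2) =
      ‖t q‖ ^ 2 := by
    intro q hq
    have h1 : ∀ x : ℕ, ‖(fam P φ u' q).f x‖ ^ 2 = ‖t q‖ ^ 2 * 1 := by
      intro x
      rw [hfb q hq, norm_mul, norm_ee, mul_one, mul_one]
    simp only [h1]
    rw [ar_mul, ar_one _ _ hN1, mul_one]
  have hval : ∀ q, Bad q → th ^ 2 / 4 ≤ tm lam q (2 ^ m) n (fam P φ u' q) := by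
    intro q hq
    unfold tm
    rw [harb q hq, tx_one lam q (2 ^ m) n (t q) (φ (j q) q) _ (hfb q hq)]
    have h1 : EB.crq lam q (2 ^ m) n (φ (j q) q) - EB.crq lam 1 (2 ^ m) n (φ (j q) q) = t q := by
      rw [ht]
    rw [h1, mul_comm ((starRingEnd ℂ) (t q)) (t q), Complex.mul_conj, Complex.ofReal_re,
      Complex.normSq_eq_norm_sq]
    have h2 : (th / 2) ^ 2 ≤ ‖t q‖ ^ 2 := pow_le_pow_left₀ (by positivity) (htl q hq) 2
    nlinarith
  refine ⟨u', ⟨⟨had.nc, ?_, ?_⟩, γ, ?_⟩, ?_⟩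
  · intro i q
    by_cases hq : Bad q
    · rw [hub q hq]
      split_ifs
      · exact (htu q hq).trans hP4r
      · rw [norm_zero]; linarith
    · rw [hug q hq]
      exact had.cb i q
  · intro q hqQ i hi l hl' hui hul
    by_cases hq : Bad q
    · rw [hub q hq] at hui hul
      have e1 : i = j q := by
        by_contra h; rw [if_neg h] at hui; exact hui rfl
      have e2 : l = j q := by
        by_contra h; rw [if_neg h] at hul; exact hul rfl
      left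
      rw [e1, e2, sub_self, nd_zero']
      positivity
    · rw [hug q hq] at hui hul
      exact had.cl q hqQ i hi l hl' hui hul
  · intro q hqQ
    by_cases hq : Bad q
    · right
      rw [harb q hq, ← hδ]
      have h2 : (th / 2) ^ 2 ≤ ‖t q‖ ^ 2 := pow_le_pow_left₀ (by positivity) (htl q hq) 2
      refine le_trans (hδth.trans ?_) h2
      have h3 : th ^ 4 ≤ th ^ 2 := pow_le_pow_of_le_one hth.le hth1 (by norm_num)
      nlinarith [sq_nonneg th]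
    · have h1 : (∀ j < P, u j q ≠ 0 → ∃ i < P, nd (φ j q - γ i) ≤ (P : ℝ) / 2 ^ m) ∨
          (δ ≤ ar 1 (2 ^ m) n (fun x => ‖(fam P φ u q).f x‖ ^ 2)) := by
        by_contra hcon
        rw [not_or] at hcon
        apply hq
        rw [hBad]
        exact ⟨hqQ, hcon.1, hcon.2⟩
      rcases h1 with h1 | h1
      · left
        intro i hi hui
        rw [hug q hq] at hui
        exact h1 i hi hui
      · right
        rw [← hδ]
        simp only [hfg q hq]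
        exact h1
  · rw [fv_tm, fv_tm]
    apply sum_le_sum
    intro q hqQ
    apply mul_le_mul_of_nonneg_left _ (by positivity)
    by_cases hq : Bad q
    · refine le_trans ?_ (hval q hq)
      have hq' := hq
      rw [hBad] at hq'
      have h1 := small_tm hl had hqQ (hN q hqQ) (δ := δ) (by rw [hδ]; exact hm)
        (not_le.1 hq'.2.2).le
      linarith
    · rw [Pool.Agent.H72.G9.tm_congr lam q (2 ^ m) n _ _ (hfg q hq)]

end Pool.Agent.H72.G0
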