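import Pool.Agent.H6.G0.Targets
import Pool.Agent.H28.GS2.UNI
import Pool.Agent.H76.GSW.GEX
import Pool.Agent.H50.GSW.BSL
import Pool.Agent.H48.GSW.Tls
import Pool.Agent.H72.G9.UXCb

/-!
# Row UXR of the board g0 (MP_c59857_nt, theorem (H0)): visible frequencies
-/

set_option autoImplicit false

open Finset Pool.Agent.H6.N4D Pool.Agent.H93 Pool.Agent.H93.GS Pool.Agent.H6.GS2 Pool.Agent.H6.G9

namespace Pool.Agent.H72.G0

lemma ee_zero' : ee 0 = 1 := by
  have := ee_int 0
  simpa using this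

/-- the correlation and the residual -/
lemma crq_rs (lam : ℕ → ℝ) (q N n : ℕ) (g : Ex) (β : ℝ) :
    EB.crq lam q N n β = rs lam q N n g β +
      ∑ l ∈ range g.k, g.c l * ac q N n (fun m => ee ((g.a l - β) * m)) := by
  have h1 : EB.crq lam q N n β = ac q N n (fun m => (lam m : ℂ) * ee (-(β * m))) := rfl
  have h2 : rs lam q N n g β = ac q N n (fun m => (lam m : ℂ) * ee (-(β * m))) -
      ac q N n (fun m => g.f m * ee (-(β * m))) := by
    unfold rs
    rw [← ac_sub]
    apply ac_congr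
    intro m _ _
    ring
  have h3 : ac q N n (fun m => g.f m * ee (-(β * m))) =
      ∑ l ∈ range g.k, g.c l * ac q N n (fun m => ee ((g.a l - β) * m)) := by
    have h4 : ∀ m, g.f m * ee (-(β * m)) =
        ∑ l ∈ range g.k, g.c l * ee ((g.a l - β) * m) := by
      intro m
      unfold Ex.f
      rw [sum_mul]
      apply sum_congr rfl
      intro l _
      rw [mul_assoc, ← ee_add]
      congr 2
      ring
    rw [ac_congr q N n (fun m _ _ => h4 m), ac_sum]
    apply sum_congr rfl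
    intro l _
    rw [ac_mul]
  rw [h1, h2, h3]
  ring

/-- the frequencies of the optimal sum are visible -/
theorem vis {th Lam : ℝ} {lam : ℕ → ℝ} {q N n : ℕ} {h : Ex} (hG : T_GEX) (hth : 0 < th)
    (hq : 1 ≤ q) (hN : 1 ≤ N) (hh : Opt th lam q N n h) (hL : 4 / th ^ 2 ≤ Lam)
    (hsep : ∀ i < h.k, ∀ l < h.k, i ≠ l → Lam * q / (N : ℝ) ≤ nd (q * (h.a i - h.a l)))
    (hnm : h.nm ≤ 1 / th) {i : ℕ} (hi : i < h.k) :
    7 / 8 * th ≤ ‖EB.crq lam q N n (h.a i)‖ := by
  have hLam : 0 < Lam := lt_of_lt_of_le (by positivity) hL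
  have hq0 : (0 : ℝ) < q := by exact_mod_cast hq
  have hN0 : (0 : ℝ) < N := by exact_mod_cast hN
  rw [crq_rs lam q N n h, hh.kt i hi, ← Finset.add_sum_erase _ _ (mem_range.2 hi)]
  have h0 : ac q N n (fun m => ee ((h.a i - h.a i) * m)) =
      (((((Ioc n (n + N)).filter (fun m => q ∣ m)).card : ℝ) * q / N : ℝ) : ℂ) := by
    have h1 : ∀ m : ℕ, ee ((h.a i - h.a i) * m) = 1 := by
      intro m
      rw [sub_self, zero_mul, ee_zero']
    rw [ac_congr q N n (fun m _ _ => h1 m)]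
    unfold ac
    rw [sum_const, nsmul_eq_mul, mul_one]
    push_cast
    ring
  obtain ⟨A, hA⟩ : ∃ A : ℝ, A = (((Ioc n (n + N)).filter (fun m => q ∣ m)).card : ℝ) * q / N :=
    ⟨_, rfl⟩
  have hA0 : 0 ≤ A := by rw [hA]; positivity
  rw [← hA] at h0
  rw [h0]
  have hc : 0 < ‖h.c i‖ := norm_pos_iff.2 (hh.nz i hi)
  have h2 : ‖(th : ℂ) * h.c i / (‖h.c i‖ : ℂ) + h.c i * (A : ℂ)‖ = th + ‖h.c i‖ * A := by
    have e : (th : ℂ) * h.c i / (‖h.c i‖ : ℂ) + h.c i * (A : ℂ) =
        h.c i * ((th / ‖h.c i‖ + A : ℝ) : ℂ) := by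
      push_cast; ring
    rw [e, norm_mul, Complex.norm_real, Real.norm_eq_abs, abs_of_nonneg (by positivity)]
    field_simp
  have h3 : ‖∑ l ∈ (range h.k).erase i, h.c l * ac q N n (fun m => ee ((h.a l - h.a i) * m))‖ ≤
      th / 8 := by
    calc _ ≤ ∑ l ∈ (range h.k).erase i, ‖h.c l * ac q N n (fun m => ee ((h.a l - h.a i) * m))‖ :=
          norm_sum_le _ _
      _ ≤ ∑ l ∈ (range h.k).erase i, ‖h.c l‖ * (1 / (2 * Lam)) := by
          apply sum_le_sum
          intro l hl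
          rw [mem_erase, mem_range] at hl
          rw [norm_mul]
          apply mul_le_mul_of_nonneg_left _ (norm_nonneg _)
          have h4 := hsep l hl.2 i hi hl.1
          have h5 : 0 < Lam * q / (N : ℝ) := by positivity
          refine (hG q N n (h.a l - h.a i) hq hN (h5.trans_le h4)).trans ?_
          rw [div_le_div_iff₀ (mul_pos (by positivity) (h5.trans_le h4)) (by positivity)]
          rw [div_le_iff₀ hN0] at h4
          nlinarith
      _ = (∑ l ∈ (range h.k).erase i, ‖h.c l‖) * (1 / (2 * Lam)) := by rw [sum_mul]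
      _ ≤ h.nm * (1 / (2 * Lam)) := by
          apply mul_le_mul_of_nonneg_right _ (by positivity)
          unfold Ex.nm
          exact sum_le_sum_of_subset_of_nonneg (erase_subset _ _) fun _ _ _ => norm_nonneg _
      _ ≤ 1 / th * (1 / (2 * (4 / th ^ 2))) := by
          apply mul_le_mul hnm _ (by positivity) (by positivity)
          apply one_div_le_one_div_of_le (by positivity)
          linarith
      _ = th / 8 := by field_simp; ring
  have h4 := norm_add_le ((th : ℂ) * h.c i / (‖h.c i‖ : ℂ) + h.c i * (A : ℂ) +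
    ∑ l ∈ (range h.k).erase i, h.c l * ac q N n (fun m => ee ((h.a l - h.a i) * m)))
    (-∑ l ∈ (range h.k).erase i, h.c l * ac q N n (fun m => ee ((h.a l - h.a i) * m)))
  rw [add_neg_cancel_right, norm_neg, h2] at h4
  rw [← add_assoc]
  have h5 : 0 ≤ ‖h.c i‖ * A := by positivity
  linarith

/-- lifts do not change the correlation on the multiples -/
lemma crq_shift (lam : ℕ → ℝ) (q N n : ℕ) (hq : 1 ≤ q) (a : ℝ) (s : ℤ) :
    EB.crq lam q N n (a + (s : ℝ) / q) = EB.crq lam q N n a := by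
  have hq0 : (q : ℝ) ≠ 0 := by
    have : (0 : ℝ) < q := by exact_mod_cast hq
    exact this.ne'
  have h1 : ∀ b, EB.crq lam q N n b = ac q N n (fun m => (lam m : ℂ) * ee (-(b * m))) :=
    fun _ => rfl
  rw [h1, h1]
  apply ac_congr
  intro m _ hm
  obtain ⟨t, rfl⟩ := hm
  congr 1
  have e : -((a + (s : ℝ) / q) * ((q * t : ℕ) : ℝ)) = -(a * ((q * t : ℕ) : ℝ)) +
      ((-(s * t) : ℤ) : ℝ) := by
    push_cast
    field_simp
    ring
  rw [e, ee_add, ee_int, mul_one]

/-- the difference of the two means -/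
lemma ac_D (q N n : ℕ) (F : ℕ → ℂ) :
    ac 1 N n (fun x => (EB.D q x : ℂ) * F x) = ac q N n F - ac 1 N n F := by
  unfold ac EB.D
  have h1 : (Ioc n (n + N)).filter (fun m => 1 ∣ m) = Ioc n (n + N) :=
    filter_true_of_mem fun m _ => one_dvd m
  rw [h1]
  have h2 : ∑ m ∈ Ioc n (n + N), (((if q ∣ m then (q : ℝ) else 0) - 1 : ℝ) : ℂ) * F m =
      (∑ m ∈ (Ioc n (n + N)).filter (fun m => q ∣ m), F m) * q - ∑ m ∈ Ioc n (n + N), F m := by
    rw [sum_filter, sum_mul, ← sum_sub_distrib]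
    apply sum_congr rfl
    intro m _
    split_ifs
    · push_cast; ring
    · push_cast; ring
  rw [h2]
  push_cast
  ring

/-- the test of a single exponential -/
lemma tx_one (lam : ℕ → ℝ) (q N n : ℕ) (c : ℂ) (a : ℝ) (F : Ex)
    (hF : ∀ x : ℕ, F.f x = c * ee (a * x)) :
    tx lam q N n F = (starRingEnd ℂ) c * (EB.crq lam q N n a - EB.crq lam 1 N n a) := by
  have h1 : ∀ q, EB.crq lam q N n a = ac q N n (fun m => (lam m : ℂ) * ee (-(a * m))) :=
    fun _ => rfl
  unfold tx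
  rw [h1, h1, ← ac_D, ← ac_mul]
  apply ac_congr
  intro m _ _
  rw [hF, map_mul, conj_ee]
  ring

/-- the sizes of the correlations -/
lemma crq_le {lam : ℕ → ℝ} (hl : ∀ m, |lam m| ≤ 1) (q N n : ℕ) (hq : 1 ≤ q) (hN : 1 ≤ N)
    (a : ℝ) : ‖EB.crq lam q N n a‖ ≤ 1 + q / N := by
  have h1 : EB.crq lam q N n a = ac q N n (fun m => (lam m : ℂ) * ee (-(a * m))) := rfl
  rw [h1]
  refine (norm_ac_le q N n _).trans ?_
  refine le_trans (ar_mono q N n fun m _ _ => ?_) (ar_one_le q N n hq hN)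
  rw [norm_mul, norm_ee, mul_one, Complex.norm_real, Real.norm_eq_abs]
  exact hl m

end Pool.Agent.H72.G0
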